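import Mathlib

/-!
# The tree of a division ring with a discrete valuation

The vertices are the norms on `D²` which are diagonal in some basis, up to a constant; a norm is
given by the family of its balls.
-/

set_option autoImplicit false

namespace Pool.Agent.N24.BT

variable {D : Type} [DivisionRing D] (v : AddValuation D (WithTop ℤ))

/-- `k ≤ v x` -/
def le (k : ℤ) (x : D) : Prop := (k : WithTop ℤ) ≤ v x

variable {v}

theorem le_zero (k : ℤ) : le v k 0 := by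
  unfold le
  rw [v.map_zero]
  exact le_top

theorem le_one {k : ℤ} : le v k 1 ↔ k ≤ 0 := by
  unfold le
  rw [v.map_one]
  exact_mod_cast Iff.rfl

theorem le.mono {k l : ℤ} {x : D} (h : le v k x) (hl : l ≤ k) : le v l x :=
  le_trans (by exact_mod_cast hl) h

theorem le.add {k : ℤ} {x y : D} (hx : le v k x) (hy : le v k y) : le v k (x + y) :=
  v.map_le_add hx hy

theorem le.neg {k : ℤ} {x : D} (hx : le v k x) : le v k (-x) := by
  unfold le
  rw [v.map_neg]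
  exact hx

theorem le.sub {k : ℤ} {x y : D} (hx : le v k x) (hy : le v k y) : le v k (x - y) :=
  v.map_le_sub hx hy

theorem le.mul {k l : ℤ} {x y : D} (hx : le v k x) (hy : le v l y) : le v (k + l) (x * y) := by
  unfold le
  rw [v.map_mul]
  push_cast
  exact add_le_add hx hy

theorem exists_val {x : D} (hx : x ≠ 0) : ∃ s : ℤ, v x = (s : WithTop ℤ) := by
  have h := (v.ne_top_iff).2 hx
  obtain ⟨s, hs⟩ := WithTop.ne_top_iff_exists.1 h
  exact ⟨s, hs.symm⟩

theorem le_iff {x : D} {s k : ℤ} (hs : v x = (s : WithTop ℤ)) : le v k x ↔ k ≤ s := by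
  unfold le
  rw [hs]
  exact_mod_cast Iff.rfl

theorem val_inv {x : D} {s : ℤ} (hs : v x = (s : WithTop ℤ)) :
    v x⁻¹ = ((-s : ℤ) : WithTop ℤ) := by
  have hx : x ≠ 0 := by
    rintro rfl
    rw [v.map_zero] at hs
    exact absurd hs (WithTop.top_ne_coe)
  obtain ⟨t, ht⟩ := exists_val (v := v) (inv_ne_zero hx)
  have h1 : v (x * x⁻¹) = v 1 := by rw [mul_inv_cancel₀ hx]
  rw [v.map_mul, v.map_one, hs, ht] at h1
  have h2 : s + t = 0 := by exact_mod_cast h1
  rw [ht]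
  congr 1
  omega

theorem le_mul_left {x y : D} {s k : ℤ} (hs : v x = (s : WithTop ℤ)) :
    le v k (x * y) ↔ le v (k - s) y := by
  have hx : x ≠ 0 := by
    rintro rfl
    rw [v.map_zero] at hs
    exact absurd hs (WithTop.top_ne_coe)
  constructor
  · intro h
    have h1 := ((le_iff (k := -s) (val_inv hs)).2 le_rfl).mul h
    rw [inv_mul_cancel_left₀ hx] at h1
    exact h1.mono (by omega)
  · intro h
    have h1 := ((le_iff (k := s) hs).2 le_rfl).mul h
    exact h1.mono (by omega)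

theorem le_antisymm_val {x : D} {s : ℤ} (h : ∀ k, le v k x ↔ k ≤ s) : v x = (s : WithTop ℤ) := by
  have h1 : x ≠ 0 := by
    rintro rfl
    have := (h (s + 1)).1 (le_zero _)
    omega
  obtain ⟨t, ht⟩ := exists_val (v := v) h1
  have h2 : t ≤ s := (h t).1 ((le_iff ht).2 le_rfl)
  have h3 : s ≤ t := (le_iff ht).1 ((h s).2 le_rfl)
  rw [ht, le_antisymm h2 h3]

/-- vectors -/
abbrev E (D : Type) : Type := Fin 2 → D

/-- invertible matrices -/
abbrev GL2 (D : Type) [DivisionRing D] : Type := (Matrix (Fin 2) (Fin 2) D)ˣ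

variable (v)

/-- the balls of the norm `min (v (x - a y)) (v y + n)` -/
def H (a : D) (n : ℤ) (k : ℤ) : Set (E D) := {u | le v k (u 0 - a * u 1) ∧ le v (k - n) (u 1)}

/-- the balls of the norm which is diagonal in the coordinates `M u` -/
def Nrm (M : GL2 D) (c0 c1 : ℤ) (k : ℤ) : Set (E D) :=
  {u | le v (k - c0) (M.1.mulVec u 0) ∧ le v (k - c1) (M.1.mulVec u 1)}

variable {v}

theorem mulVec_zero' (M : Matrix (Fin 2) (Fin 2) D) (u : E D) :
    M.mulVec u 0 = M 0 0 * u 0 + M 0 1 * u 1 := by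
  simp [Matrix.mulVec, dotProduct, Fin.sum_univ_two]

theorem mulVec_one' (M : Matrix (Fin 2) (Fin 2) D) (u : E D) :
    M.mulVec u 1 = M 1 0 * u 0 + M 1 1 * u 1 := by
  simp [Matrix.mulVec, dotProduct, Fin.sum_univ_two]

/-- elimination with a pivot -/
theorem herm_aux (p0 q0 p1 q1 : D) (c0 c1 s : ℤ) (hp : v p0 = (s : WithTop ℤ))
    (hpiv : le v (s + c0 - c1) p1) (hinv : ∀ x y : D, p0 * x + q0 * y = 0 → p1 * x + q1 * y = 0 →
      y = 0) : ∃ (a : D) (n c : ℤ), ∀ (k : ℤ) (x y : D),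
        (le v (k - c0) (p0 * x + q0 * y) ∧ le v (k - c1) (p1 * x + q1 * y)) ↔
          (le v (k - c) (x - a * y) ∧ le v (k - c - n) y) := by
  have hp0 : p0 ≠ 0 := by
    rintro rfl
    rw [v.map_zero] at hp
    exact absurd hp (WithTop.top_ne_coe)
  obtain ⟨lam, hlam⟩ : ∃ lam, lam = p1 * p0⁻¹ := ⟨_, rfl⟩
  have hl : le v (c0 - c1) lam := by
    rw [hlam]
    exact (hpiv.mul ((le_iff (k := -s) (val_inv hp)).2 le_rfl)).mono (by omega)
  obtain ⟨d, hd⟩ : ∃ d, d = q1 - lam * q0 := ⟨_, rfl⟩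
  have hY : ∀ x y : D, p1 * x + q1 * y = d * y + lam * (p0 * x + q0 * y) := by
    intro x y
    rw [hd, hlam]
    have h1 : p1 * p0⁻¹ * (p0 * x + q0 * y) = p1 * x + p1 * p0⁻¹ * q0 * y := by
      rw [mul_add, ← mul_assoc, ← mul_assoc, mul_assoc p1, inv_mul_cancel₀ hp0, mul_one]
    rw [h1, sub_mul]
    abel
  have hX : ∀ x y : D, p0 * x + q0 * y = p0 * (x - (-(p0⁻¹ * q0)) * y) := by
    intro x y
    rw [neg_mul, sub_neg_eq_add, mul_add, ← mul_assoc, mul_inv_cancel_left₀ hp0]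
  have hd0 : d ≠ 0 := by
    intro h0
    have h1 := hinv (-(p0⁻¹ * q0)) 1 (by rw [hX]; simp) (by rw [hY, hX, h0]; simp)
    exact one_ne_zero h1
  obtain ⟨t, ht⟩ := exists_val (v := v) hd0
  refine ⟨-(p0⁻¹ * q0), t + c1 - (c0 + s), c0 + s, ?_⟩
  intro k x y
  have h1 : (le v (k - c0) (p0 * x + q0 * y) ∧ le v (k - c1) (p1 * x + q1 * y)) ↔
      (le v (k - c0) (p0 * x + q0 * y) ∧ le v (k - c1) (d * y)) := by
    constructor
    · rintro ⟨h1, h2⟩
      refine ⟨h1, ?_⟩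
      have h3 : d * y = (p1 * x + q1 * y) - lam * (p0 * x + q0 * y) := by
        rw [hY]; abel
      rw [h3]
      exact h2.sub ((hl.mul h1).mono (by omega))
    · rintro ⟨h1, h2⟩
      refine ⟨h1, ?_⟩
      rw [hY]
      exact h2.add ((hl.mul h1).mono (by omega))
  rw [h1, hX, le_mul_left hp, le_mul_left ht]
  have e1 : k - c0 - s = k - (c0 + s) := by omega
  have e2 : k - c1 - t = k - (c0 + s) - (t + c1 - (c0 + s)) := by omega
  rw [e1, e2]

/-- the normal form -/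
theorem herm (M : GL2 D) (c0 c1 : ℤ) :
    ∃ (a : D) (n c : ℤ), ∀ k, Nrm v M c0 c1 k = H v a n (k - c) := by
  have hinj : ∀ x y : D, M.1 0 0 * x + M.1 0 1 * y = 0 → M.1 1 0 * x + M.1 1 1 * y = 0 →
      y = 0 := by
    intro x y h1 h2
    have h3 : M.1.mulVec ![x, y] = 0 := by
      funext i
      fin_cases i
      · show M.1.mulVec ![x, y] 0 = 0
        rw [mulVec_zero']
        simpa using h1
      · show M.1.mulVec ![x, y] 1 = 0
        rw [mulVec_one']
        simpa using h2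
    have h4 : (M⁻¹).1.mulVec (M.1.mulVec ![x, y]) = ![x, y] := by
      rw [Matrix.mulVec_mulVec, Units.inv_mul, Matrix.one_mulVec]
    rw [h3, Matrix.mulVec_zero] at h4
    have h5 := congrFun h4 1
    simpa using h5.symm
  have hcol : M.1 0 0 ≠ 0 ∨ M.1 1 0 ≠ 0 := by
    by_contra hcon
    push Not at hcon
    obtain ⟨h1, h2⟩ := hcon
    have h3 : M.1.mulVec ![1, 0] = 0 := by
      funext i
      fin_cases i
      · show M.1.mulVec ![1, 0] 0 = 0
        rw [mulVec_zero']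
        simp [h1]
      · show M.1.mulVec ![1, 0] 1 = 0
        rw [mulVec_one']
        simp [h2]
    have h4 : (M⁻¹).1.mulVec (M.1.mulVec ![1, 0]) = ![1, 0] := by
      rw [Matrix.mulVec_mulVec, Units.inv_mul, Matrix.one_mulVec]
    rw [h3, Matrix.mulVec_zero] at h4
    have h5 := congrFun h4 0
    simp at h5
  -- one of the two pivots
  have key : (∃ s : ℤ, v (M.1 0 0) = (s : WithTop ℤ) ∧ le v (s + c0 - c1) (M.1 1 0)) ∨
      (∃ s : ℤ, v (M.1 1 0) = (s : WithTop ℤ) ∧ le v (s + c1 - c0) (M.1 0 0)) := by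
    by_cases h0 : M.1 0 0 = 0
    · right
      rcases hcol with h | h
      · exact absurd h0 h
      · obtain ⟨s, hs⟩ := exists_val (v := v) h
        exact ⟨s, hs, by rw [h0]; exact le_zero _⟩
    · by_cases h1 : M.1 1 0 = 0
      · left
        obtain ⟨s, hs⟩ := exists_val (v := v) h0
        exact ⟨s, hs, by rw [h1]; exact le_zero _⟩
      · obtain ⟨s, hs⟩ := exists_val (v := v) h0
        obtain ⟨t, ht⟩ := exists_val (v := v) h1
        by_cases h2 : s + c0 ≤ t + c1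
        · exact Or.inl ⟨s, hs, (le_iff ht).2 (by omega)⟩
        · exact Or.inr ⟨t, ht, (le_iff hs).2 (by omega)⟩
  rcases key with ⟨s, hs, h1⟩ | ⟨s, hs, h1⟩
  · obtain ⟨a, n, c, h⟩ := herm_aux (M.1 0 0) (M.1 0 1) (M.1 1 0) (M.1 1 1) c0 c1 s hs h1 hinj
    refine ⟨a, n, c, fun k => ?_⟩
    ext u
    show (le v (k - c0) (M.1.mulVec u 0) ∧ le v (k - c1) (M.1.mulVec u 1)) ↔ _
    rw [mulVec_zero', mulVec_one', h]
    rfl
  · obtain ⟨a, n, c, h⟩ := herm_aux (M.1 1 0) (M.1 1 1) (M.1 0 0) (M.1 0 1) c1 c0 s hs h1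
      (fun x y h2 h3 => hinj x y h3 h2)
    refine ⟨a, n, c, fun k => ?_⟩
    ext u
    show (le v (k - c0) (M.1.mulVec u 0) ∧ le v (k - c1) (M.1.mulVec u 1)) ↔ _
    rw [mulVec_zero', mulVec_one', and_comm, h]
    rfl

theorem e10 (a : D) (n k : ℤ) : (![1, 0] : E D) ∈ H v a n k ↔ k ≤ 0 := by
  show (le v k ((![1, 0] : E D) 0 - a * (![1, 0] : E D) 1) ∧ le v (k - n) ((![1, 0] : E D) 1)) ↔ _
  simp only [Matrix.cons_val_zero, Matrix.cons_val_one, mul_zero, sub_zero, le_one]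
  exact ⟨fun h => h.1, fun h => ⟨h, le_zero _⟩⟩

theorem eb1 (a b : D) (n k : ℤ) : (![b, 1] : E D) ∈ H v a n k ↔ le v k (b - a) ∧ k ≤ n := by
  show (le v k ((![b, 1] : E D) 0 - a * (![b, 1] : E D) 1) ∧ le v (k - n) ((![b, 1] : E D) 1)) ↔ _
  simp only [Matrix.cons_val_zero, Matrix.cons_val_one, mul_one, le_one]
  exact ⟨fun h => ⟨h.1, by omega⟩, fun h => ⟨h.1, by omega⟩⟩

theorem ea1 (a : D) (n k : ℤ) : (![a, 1] : E D) ∈ H v a n k ↔ k ≤ n := by
  rw [eb1, sub_self]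
  exact ⟨fun h => h.2, fun h => ⟨le_zero _, h⟩⟩

theorem H_congr {a b : D} {n : ℤ} (h : le v n (a - b)) (k : ℤ) : H v a n k = H v b n k := by
  have aux : ∀ a b : D, le v n (a - b) → H v a n k ⊆ H v b n k := by
    rintro a b h u ⟨h1, h2⟩
    refine ⟨?_, h2⟩
    have h3 : u 0 - b * u 1 = (u 0 - a * u 1) + (a - b) * u 1 := by
      rw [sub_mul]; abel
    rw [h3]
    exact h1.add ((h.mul h2).mono (by omega))
  apply Set.Subset.antisymm (aux a b h)
  apply aux b a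
  have := h.neg
  rwa [neg_sub] at this

theorem H_eq {a b : D} {n m c : ℤ} (h : ∀ k, H v b m k = H v a n (k - c)) :
    c = 0 ∧ n = m ∧ le v n (a - b) := by
  have h1 : ∀ k : ℤ, k ≤ 0 ↔ k - c ≤ 0 := by
    intro k
    rw [← e10 (v := v) b m k, h k, e10]
  have hc : c = 0 := by
    have h2 := (h1 0).1 le_rfl
    have h3 := (h1 c).2 (by omega)
    omega
  subst hc
  have h2 : (![a, 1] : E D) ∈ H v b m n := by
    rw [h n]
    exact (ea1 _ _ _).2 (by omega)
  rw [eb1] at h2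
  have h3 : (![b, 1] : E D) ∈ H v a n (m - 0) := by
    rw [← h m]
    exact (ea1 _ _ _).2 le_rfl
  rw [eb1] at h3
  exact ⟨rfl, by omega, h2.1⟩

theorem H_adj {a b : D} {n m c : ℤ} (h1 : ∀ k, H v b m (k - c) ⊆ H v a n k)
    (h2 : ∀ k, H v a n k ⊆ H v b m (k - c - 1)) :
    (n = m ∧ le v n (a - b)) ∨ (n = m + 1 ∧ le v m (a - b)) ∨ (m = n + 1 ∧ le v n (a - b)) := by
  have hc1 : c ≤ 0 := (e10 (v := v) a n c).1 (h1 c ((e10 _ _ _).2 (by omega)))
  have hc2 : -c - 1 ≤ 0 := by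
    have := (e10 (v := v) b m (0 - c - 1)).1 (h2 0 ((e10 _ _ _).2 le_rfl))
    omega
  have h3 := (eb1 (v := v) b a m (n - c - 1)).1 (h2 n ((ea1 _ _ _).2 le_rfl))
  have h4 := (eb1 (v := v) a b n (m + c)).1 (h1 (m + c) ((ea1 _ _ _).2 (by omega)))
  have h5 : le v (m + c) (a - b) := by
    have := h4.1.neg
    rwa [neg_sub] at this
  have hc : c = 0 ∨ c = -1 := by omega
  rcases hc with rfl | rfl
  · by_cases hnm : n = m
    · exact Or.inl ⟨hnm, h5.mono (by omega)⟩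
    · exact Or.inr (Or.inl ⟨by omega, h5.mono (by omega)⟩)
  · by_cases hnm : n = m
    · exact Or.inl ⟨hnm, h3.1.mono (by omega)⟩
    · exact Or.inr (Or.inr ⟨by omega, h3.1.mono (by omega)⟩)

/-! ### the vertices -/

variable (v)

/-- the balls of a norm which is diagonal in some basis -/
def IsNm (B : ℤ → Set (E D)) : Prop :=
  ∃ (M : GL2 D) (c0 c1 : ℤ), ∀ k, B k = Nrm v M c0 c1 k

/-- equal up to a constant -/
def Sim : Setoid {B : ℤ → Set (E D) // IsNm v B} where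
  r B B' := ∃ c : ℤ, ∀ k, B'.1 k = B.1 (k - c)
  iseqv := by
    refine ⟨fun B => ⟨0, fun k => by rw [sub_zero]⟩, ?_, ?_⟩
    · rintro B B' ⟨c, h⟩
      refine ⟨-c, fun k => ?_⟩
      have e : k - -c - c = k := by omega
      rw [h, e]
    · rintro B B' B'' ⟨c, h⟩ ⟨c', h'⟩
      refine ⟨c + c', fun k => ?_⟩
      have e : k - c' - c = k - (c + c') := by omega
      rw [h', h, e]

/-- the vertices of the tree -/
abbrev Vt : Type := Quotient (Sim v)

variable {v}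

theorem isNm_smul (g : GL2 D) {B : ℤ → Set (E D)} (h : IsNm v B) :
    IsNm v (fun k => {u | (g⁻¹).1.mulVec u ∈ B k}) := by
  obtain ⟨M, c0, c1, h⟩ := h
  refine ⟨M * g⁻¹, c0, c1, fun k => ?_⟩
  ext u
  show (g⁻¹).1.mulVec u ∈ B k ↔ _
  rw [h]
  show (le v (k - c0) (M.1.mulVec ((g⁻¹).1.mulVec u) 0) ∧
    le v (k - c1) (M.1.mulVec ((g⁻¹).1.mulVec u) 1)) ↔ _
  rw [Matrix.mulVec_mulVec]
  rfl

instance : MulAction (GL2 D) (Vt v) where
  smul g := Quotient.map (fun B => ⟨fun k => {u | (g⁻¹).1.mulVec u ∈ B.1 k}, isNm_smul g B.2⟩) (by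
    rintro B B' ⟨c, h⟩
    refine ⟨c, fun k => ?_⟩
    show {u | (g⁻¹).1.mulVec u ∈ B'.1 k} = {u | (g⁻¹).1.mulVec u ∈ B.1 (k - c)}
    rw [h])
  one_smul := by
    rintro ⟨B⟩
    refine congrArg (Quotient.mk _) (Subtype.ext ?_)
    funext k
    show {u | ((1 : GL2 D)⁻¹).1.mulVec u ∈ B.1 k} = B.1 k
    rw [inv_one]
    ext u
    show (1 : Matrix (Fin 2) (Fin 2) D).mulVec u ∈ B.1 k ↔ _
    rw [Matrix.one_mulVec]
  mul_smul g h := by
    rintro ⟨B⟩
    refine congrArg (Quotient.mk _) (Subtype.ext ?_)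
    funext k
    ext u
    show ((g * h)⁻¹).1.mulVec u ∈ B.1 k ↔ (h⁻¹).1.mulVec ((g⁻¹).1.mulVec u) ∈ B.1 k
    rw [Matrix.mulVec_mulVec, mul_inv_rev, Units.val_mul]

theorem isNm_H (a : D) (n : ℤ) : IsNm v (H v a n) := by
  refine ⟨⟨!![1, -a; 0, 1], !![1, a; 0, 1], ?_, ?_⟩, 0, n, fun k => ?_⟩
  · rw [Matrix.mul_fin_two, Matrix.one_fin_two]
    simp
  · rw [Matrix.mul_fin_two, Matrix.one_fin_two]
    simp
  · ext u
    show _ ↔ (le v (k - 0) ((!![1, -a; 0, 1] : Matrix (Fin 2) (Fin 2) D).mulVec u 0) ∧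
      le v (k - n) ((!![1, -a; 0, 1] : Matrix (Fin 2) (Fin 2) D).mulVec u 1))
    rw [mulVec_zero', mulVec_one']
    have h1 : (!![1, -a; 0, 1] : Matrix (Fin 2) (Fin 2) D) 0 0 * u 0 +
        (!![1, -a; 0, 1] : Matrix (Fin 2) (Fin 2) D) 0 1 * u 1 = u 0 - a * u 1 := by
      simp [sub_eq_add_neg]
    have h2 : (!![1, -a; 0, 1] : Matrix (Fin 2) (Fin 2) D) 1 0 * u 0 +
        (!![1, -a; 0, 1] : Matrix (Fin 2) (Fin 2) D) 1 1 * u 1 = u 1 := by
      simp
    rw [h1, h2, sub_zero]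
    exact Iff.rfl

variable (v)

/-- the vertex of a ball -/
def mkH (a : D) (n : ℤ) : Vt v := Quotient.mk _ ⟨H v a n, isNm_H a n⟩

variable {v}

theorem mkH_eq {a b : D} {n m : ℤ} : mkH v a n = mkH v b m ↔ n = m ∧ le v n (a - b) := by
  constructor
  · intro h
    obtain ⟨c, hc⟩ := Quotient.exact h
    exact (H_eq hc).2
  · rintro ⟨rfl, h⟩
    exact Quotient.sound ⟨0, fun k => by
      show H v b n k = H v a n (k - 0)
      rw [sub_zero, H_congr h]⟩

theorem mkH_surj (x : Vt v) : ∃ (a : D) (n : ℤ), x = mkH v a n := by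
  obtain ⟨⟨B, M, c0, c1, h⟩, rfl⟩ := Quotient.exists_rep x
  obtain ⟨a, n, c, h1⟩ := herm (v := v) M c0 c1
  refine ⟨a, n, Quotient.sound ⟨-c, fun k => ?_⟩⟩
  show H v a n k = B (k - -c)
  rw [h, h1]
  congr 1
  omega

variable (v)

/-- the tree -/
def Tr : SimpleGraph (Vt v) where
  Adj x y := x ≠ y ∧ ∃ B B' : {B : ℤ → Set (E D) // IsNm v B}, Quotient.mk (Sim v) B = x ∧
    Quotient.mk (Sim v) B' = y ∧ ∀ k, B'.1 k ⊆ B.1 k ∧ B.1 k ⊆ B'.1 (k - 1)
  symm := by
    refine ⟨?_⟩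
    rintro x y ⟨hxy, B, B', rfl, rfl, h⟩
    refine ⟨hxy.symm, B', ⟨fun k => B.1 (k + 1), ?_⟩, rfl, Quotient.sound ⟨1, fun k => ?_⟩,
      fun k => ⟨?_, ?_⟩⟩
    · obtain ⟨M, c0, c1, hM⟩ := B.2
      refine ⟨M, c0 - 1, c1 - 1, fun k => ?_⟩
      show B.1 (k + 1) = _
      rw [hM]
      ext u
      show (le v (k + 1 - c0) _ ∧ le v (k + 1 - c1) _) ↔ (le v (k - (c0 - 1)) _ ∧
        le v (k - (c1 - 1)) _)
      have e1 : k + 1 - c0 = k - (c0 - 1) := by omega
      have e2 : k + 1 - c1 = k - (c1 - 1) := by omega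
      rw [e1, e2]
    · show B.1 k = B.1 (k - 1 + 1)
      have e : k - 1 + 1 = k := by omega
      rw [e]
    · have := (h (k + 1)).2
      have e : k + 1 - 1 = k := by omega
      rwa [e] at this
    · show B'.1 k ⊆ B.1 (k - 1 + 1)
      have e : k - 1 + 1 = k := by omega
      rw [e]
      exact (h k).1
  loopless := ⟨fun x h => h.1 rfl⟩

variable {v}

theorem adj_smul (g : GL2 D) {x y : Vt v} (h : (Tr v).Adj x y) : (Tr v).Adj (g • x) (g • y) := by
  obtain ⟨hxy, B, B', rfl, rfl, h⟩ := h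
  refine ⟨fun h1 => hxy (MulAction.injective g h1),
    ⟨fun k => {u | (g⁻¹).1.mulVec u ∈ B.1 k}, isNm_smul g B.2⟩,
    ⟨fun k => {u | (g⁻¹).1.mulVec u ∈ B'.1 k}, isNm_smul g B'.2⟩, rfl, rfl, fun k => ⟨?_, ?_⟩⟩
  · intro u hu
    exact (h k).1 hu
  · intro u hu
    exact (h k).2 hu

theorem adj_cases {a b : D} {n m : ℤ} (h : (Tr v).Adj (mkH v a n) (mkH v b m)) :
    (n = m + 1 ∧ le v m (a - b)) ∨ (m = n + 1 ∧ le v n (a - b)) := by
  obtain ⟨hxy, B, B', h1, h2, h⟩ := h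
  obtain ⟨c1, hc1⟩ := Quotient.exact h1
  obtain ⟨c2, hc2⟩ := Quotient.exact h2
  have hc1' : ∀ k, H v a n k = B.1 (k - c1) := hc1
  have hc2' : ∀ k, H v b m k = B'.1 (k - c2) := hc2
  have h4 : ∀ k, H v b m (k - (c1 - c2)) ⊆ H v a n k := by
    intro k
    rw [hc1', hc2']
    have e : k - (c1 - c2) - c2 = k - c1 := by omega
    rw [e]
    exact (h _).1
  have h5 : ∀ k, H v a n k ⊆ H v b m (k - (c1 - c2) - 1) := by
    intro k
    rw [hc1', hc2']
    have e : k - (c1 - c2) - 1 - c2 = k - c1 - 1 := by omega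
    rw [e]
    exact (h _).2
  rcases H_adj h4 h5 with h3 | h3 | h3
  · exact absurd (mkH_eq.2 h3) hxy
  · exact Or.inl h3
  · exact Or.inr h3

theorem adj_parent (a : D) (n : ℤ) : (Tr v).Adj (mkH v a n) (mkH v a (n - 1)) := by
  refine ⟨fun h => ?_, ⟨H v a n, isNm_H a n⟩, ⟨H v a (n - 1), isNm_H a (n - 1)⟩, rfl, rfl,
    fun k => ⟨?_, ?_⟩⟩
  · have := (mkH_eq.1 h).1
    omega
  · rintro u ⟨h1, h2⟩
    exact ⟨h1, h2.mono (by omega)⟩
  · rintro u ⟨h1, h2⟩
    exact ⟨h1.mono (by omega), h2.mono (by omega)⟩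

/-- the centre of a ball -/
noncomputable def cen (x : Vt v) : D := (mkH_surj x).choose

/-- the level -/
noncomputable def lv (x : Vt v) : ℤ := (mkH_surj x).choose_spec.choose

theorem cen_lv (x : Vt v) : x = mkH v (cen x) (lv x) := (mkH_surj x).choose_spec.choose_spec

/-- the parent -/
noncomputable def pa (x : Vt v) : Vt v := mkH v (cen x) (lv x - 1)

theorem lv_mkH (a : D) (n : ℤ) : lv (mkH v a n) = n := (mkH_eq.1 (cen_lv (mkH v a n))).1.symm

theorem pa_mkH (a : D) (n : ℤ) : pa (mkH v a n) = mkH v a (n - 1) := by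
  have h1 := mkH_eq.1 (cen_lv (mkH v a n))
  unfold pa
  rw [lv_mkH]
  refine mkH_eq.2 ⟨rfl, ?_⟩
  have h2 := h1.2.neg
  rw [neg_sub] at h2
  exact h2.mono (by omega)

theorem lv_pa (x : Vt v) : lv (pa x) = lv x - 1 := by
  unfold pa
  rw [lv_mkH]

theorem adj_pa (x : Vt v) : (Tr v).Adj x (pa x) := by
  obtain ⟨a, n, rfl⟩ := mkH_surj x
  rw [pa_mkH]
  exact adj_parent a n

theorem adj_pa_or {x y : Vt v} (h : (Tr v).Adj x y) : y = pa x ∨ x = pa y := by
  obtain ⟨a, n, rfl⟩ := mkH_surj x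
  obtain ⟨b, m, rfl⟩ := mkH_surj y
  rw [pa_mkH, pa_mkH]
  rcases adj_cases h with ⟨h1, h2⟩ | ⟨h1, h2⟩
  · left
    refine mkH_eq.2 ⟨by omega, ?_⟩
    have := h2.neg
    rwa [neg_sub] at this
  · right
    exact mkH_eq.2 ⟨by omega, h2⟩

theorem reach_down (a : D) (n : ℤ) (k : ℕ) : (Tr v).Reachable (mkH v a n) (mkH v a (n - k)) := by
  induction k with
  | zero => simp
  | succ k ih =>
    refine ih.trans ?_
    have h1 := (adj_parent (v := v) a (n - k)).reachable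
    have e : n - (k : ℤ) - 1 = n - ((k + 1 : ℕ) : ℤ) := by push_cast; omega
    rwa [e] at h1

theorem tr_connected : (Tr v).Connected := by
  have : Nonempty (Vt v) := ⟨mkH v 0 0⟩
  refine ⟨?_⟩
  intro x y
  obtain ⟨a, n, rfl⟩ := mkH_surj x
  obtain ⟨b, m, rfl⟩ := mkH_surj y
  -- a common level
  obtain ⟨l, hl⟩ : ∃ l : ℤ, le v l (a - b) := by
    by_cases h : a - b = 0
    · exact ⟨0, by rw [h]; exact le_zero _⟩
    · obtain ⟨s, hs⟩ := exists_val (v := v) h
      exact ⟨s, (le_iff hs).2 le_rfl⟩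
  obtain ⟨j, hj1, hj2, hj3⟩ : ∃ j : ℤ, j ≤ n ∧ j ≤ m ∧ j ≤ l :=
    ⟨min n (min m l), by omega, by omega, by omega⟩
  have h1 := reach_down (v := v) a n (n - j).toNat
  have h2 := reach_down (v := v) b m (m - j).toNat
  have e1 : n - ((n - j).toNat : ℤ) = j := by omega
  have e2 : m - ((m - j).toNat : ℤ) = j := by omega
  rw [e1] at h1
  rw [e2] at h2
  rw [show mkH v b j = mkH v a j from (mkH_eq.2 ⟨rfl, hl.mono hj3⟩).symm] at h2
  exact h1.trans h2.symm

theorem lv_iter (x : Vt v) (k : ℕ) : lv (pa^[k] x) = lv x - k := by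
  induction k with
  | zero => simp
  | succ k ih =>
    rw [Function.iterate_succ_apply', lv_pa, ih]
    push_cast
    omega

theorem bridge (x : Vt v) : ¬ ((Tr v).deleteEdges {s(x, pa x)}).Reachable x (pa x) := by
  rintro ⟨p⟩
  have key : ∀ (y z : Vt v) (p : ((Tr v).deleteEdges {s(x, pa x)}).Walk y z),
      (∃ k : ℕ, pa^[k] y = x) → ∃ k : ℕ, pa^[k] z = x := by
    intro y z p
    induction p with
    | nil => exact id
    | @cons a b c h q ih =>
      rintro ⟨k, hk⟩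
      apply ih
      rw [SimpleGraph.deleteEdges_adj] at h
      obtain ⟨h1, h2⟩ := h
      rcases adj_pa_or h1 with h3 | h3
      · cases k with
        | zero =>
          exfalso
          apply h2
          have h4 : a = x := hk
          rw [h3, h4]
          rfl
        | succ k =>
          refine ⟨k, ?_⟩
          rw [Function.iterate_succ_apply] at hk
          rw [h3]
          exact hk
      · refine ⟨k + 1, ?_⟩
        rw [Function.iterate_succ_apply, ← h3]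
        exact hk
  obtain ⟨k, hk⟩ := key x (pa x) p ⟨0, rfl⟩
  have h1 := congrArg lv hk
  rw [lv_iter, lv_pa] at h1
  omega

theorem tr_tree : (Tr v).IsTree := by
  refine ⟨tr_connected, ?_⟩
  rw [SimpleGraph.isAcyclic_iff_forall_adj_isBridge]
  intro x y h
  rw [SimpleGraph.isBridge_iff]
  rcases adj_pa_or h with h1 | h1
  · rw [h1]
    exact bridge x
  · rw [h1, Sym2.eq_swap]
    intro h2
    exact bridge y h2.symm

/-! ### stabilizers are bounded -/

theorem H_bound (a : D) (n : ℤ) : ∃ C : ℕ, ∀ k : ℤ, H v a n k ⊆ H v 0 0 (k - C) ∧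
    H v 0 0 k ⊆ H v a n (k - C) := by
  obtain ⟨s, hs⟩ : ∃ s : ℤ, le v s a := by
    by_cases h : a = 0
    · exact ⟨0, by rw [h]; exact le_zero _⟩
    · obtain ⟨s, hs⟩ := exists_val (v := v) h
      exact ⟨s, (le_iff hs).2 le_rfl⟩
  refine ⟨n.natAbs + s.natAbs, fun k => ⟨?_, ?_⟩⟩
  · rintro u ⟨h1, h2⟩
    have h3 : u 0 - 0 * u 1 = (u 0 - a * u 1) + a * u 1 := by
      rw [zero_mul, sub_zero, sub_add_cancel]
    refine ⟨?_, h2.mono (by omega)⟩
    rw [h3]
    exact (h1.mono (by omega)).add ((hs.mul h2).mono (by omega))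
  · rintro u ⟨h1, h2⟩
    have h3 : u 0 - a * u 1 = (u 0 - 0 * u 1) - a * u 1 := by
      rw [zero_mul, sub_zero]
    refine ⟨?_, h2.mono (by omega)⟩
    rw [h3]
    exact (h1.mono (by omega)).sub ((hs.mul h2).mono (by omega))

theorem H00_entries {k : ℤ} {u : E D} (h : u ∈ H v 0 0 k) (i : Fin 2) : le v k (u i) := by
  obtain ⟨h1, h2⟩ := h
  rw [zero_mul, sub_zero] at h1
  rw [sub_zero] at h2
  fin_cases i
  · exact h1
  · exact h2

theorem std_mem (j : Fin 2) : (Pi.single j 1 : E D) ∈ H v 0 0 0 := by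
  have h1 : ∀ i, le v 0 ((Pi.single j 1 : E D) i) := by
    intro i
    by_cases h : i = j
    · subst h
      rw [Pi.single_eq_same]
      exact le_one.2 le_rfl
    · rw [Pi.single_eq_of_ne h]
      exact le_zero _
  refine ⟨?_, ?_⟩
  · rw [zero_mul, sub_zero]
    exact h1 0
  · exact h1 1

theorem stab_bound (x : Vt v) : ∃ C : ℕ, ∀ g : GL2 D, g • x = x →
    (∀ i j, le v (-(C : ℤ)) (g.1 i j)) ∨ (∀ i j, le v (-(C : ℤ)) ((g⁻¹).1 i j)) := by
  obtain ⟨a, n, rfl⟩ := mkH_surj x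
  obtain ⟨C, hC⟩ := H_bound (v := v) a n
  refine ⟨2 * C, fun g hg => ?_⟩
  obtain ⟨c, hc⟩ := Quotient.exact hg
  have hc' : ∀ (k : ℤ) (u : E D), u ∈ H v a n k ↔ (g⁻¹).1.mulVec u ∈ H v a n (k - c) := by
    intro k u
    have h1 : H v a n k = {u | (g⁻¹).1.mulVec u ∈ H v a n (k - c)} := hc k
    conv_lhs => rw [h1]
    rfl
  by_cases h0 : c ≤ 0
  · right
    intro i j
    have h1 : (Pi.single j 1 : E D) ∈ H v a n (0 - C) := (hC 0).2 (std_mem j)
    have h2 := (hC _).1 ((hc' _ _).1 h1)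
    have h3 := H00_entries h2 i
    rw [Matrix.mulVec_single_one] at h3
    exact h3.mono (by push_cast; omega)
  · left
    intro i j
    have h1 : (Pi.single j 1 : E D) ∈ H v a n (0 - C) := (hC 0).2 (std_mem j)
    have h4 : (g⁻¹).1.mulVec (g.1.mulVec (Pi.single j 1 : E D)) = Pi.single j 1 := by
      rw [Matrix.mulVec_mulVec, Units.inv_mul, Matrix.one_mulVec]
    have h5 : g.1.mulVec (Pi.single j 1 : E D) ∈ H v a n (0 - C + c) := by
      rw [hc', h4]
      have e : 0 - (C : ℤ) + c - c = 0 - C := by omega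
      rw [e]
      exact h1
    have h3 := H00_entries ((hC _).1 h5) i
    rw [Matrix.mulVec_single_one] at h3
    exact h3.mono (by push_cast; omega)

end Pool.Agent.N24.BT
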