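import Pool.Agent.N24.TR.Tree
import Pool.Agent.N24.TR.BT

/-!
# Groups of two by two matrices over rings with a discrete valuation
-/

set_option autoImplicit false

namespace Pool.Agent.N24.TR

open Pool.Agent.Y110.FJ Pool.Agent.N24.BT

section general

variable {C : ∀ (G : Type) [Group G], Prop}

/-- the criterion for groups of matrices over a division ring with a discrete valuation -/
theorem gl2_closed (hC : ClosedE C) {D : Type} [DivisionRing D] (v : AddValuation D (WithTop ℤ))
    {G : Type} [Group G] (ι : G →* GL2 D)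
    (h : ∀ n : ℕ, ∃ (P : Type) (_ : Group P) (f : G →* P), C P ∧ ∀ g : G, f g = 1 →
      (∀ i j, ((-(n : ℤ) : ℤ) : WithTop ℤ) ≤ v ((ι g).1 i j)) → g = 1) : C G := by
  classical
  let _ : MulAction G (Vt v) := MulAction.compHom (Vt v) ι
  refine tree_closed (T := Tr v) hC tr_tree (fun g x y hxy => adj_smul (ι g) hxy) ?_
  intro Φ
  choose B hB using fun x : Vt v => stab_bound x
  obtain ⟨n, hn⟩ : ∃ n : ℕ, ∀ x ∈ Φ, B x ≤ n := ⟨Φ.sup B, fun x hx => Finset.le_sup hx⟩
  obtain ⟨P, _, f, hP, hf⟩ := h n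
  refine ⟨P, _, f, hP, fun x hx g hg h1 => ?_⟩
  have hcast : ∀ y : D, le v (-(B x : ℤ)) y → ((-(n : ℤ) : ℤ) : WithTop ℤ) ≤ v y := by
    intro y hy
    exact hy.mono (by have := hn x hx; omega)
  rcases hB x (ι g) hg with h2 | h2
  · exact hf g h1 (fun i j => hcast _ (h2 i j))
  · have h3 := hf g⁻¹ (by rw [map_inv, h1, inv_one]) (fun i j => by
      rw [map_inv]
      exact hcast _ (h2 i j))
    exact inv_eq_one.1 h3

end general

section algebra

variable {K A : Type} [Field K] [Ring A] [Algebra K A]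

/-- the homomorphism to the zero algebra -/
def zeroHom (K A : Type) [Field K] [Ring A] [Algebra K A] : A →ₐ[K] PUnit where
  toFun _ := 0
  map_one' := rfl
  map_mul' _ _ := rfl
  map_zero' := rfl
  map_add' _ _ := rfl
  commutes' _ := rfl

theorem exists_sep_aux (S : Submodule K A) [FiniteDimensional K S]
    (hres : ∀ a : A, a ≠ 0 → ∃ (B : Type) (_ : Ring B) (_ : Algebra K B) (φ : A →ₐ[K] B),
      FiniteDimensional K B ∧ φ a ≠ 0) (d : ℕ) :
    ∀ (B : Type) [Ring B] [Algebra K B] (φ : A →ₐ[K] B), FiniteDimensional K B →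
      Module.finrank K (S ⊓ LinearMap.ker φ.toLinearMap : Submodule K A) ≤ d →
      ∃ (B : Type) (_ : Ring B) (_ : Algebra K B) (φ : A →ₐ[K] B),
        FiniteDimensional K B ∧ ∀ a ∈ S, φ a = 0 → a = 0 := by
  induction d with
  | zero =>
    intro B _ _ φ hB hd
    have hfd : FiniteDimensional K (S ⊓ LinearMap.ker φ.toLinearMap : Submodule K A) :=
      Submodule.finiteDimensional_inf_left _ _
    have h1 : (S ⊓ LinearMap.ker φ.toLinearMap : Submodule K A) = ⊥ :=
      Submodule.finrank_eq_zero.1 (Nat.le_zero.1 hd)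
    refine ⟨B, _, _, φ, hB, fun a ha h2 => ?_⟩
    have h3 : a ∈ (S ⊓ LinearMap.ker φ.toLinearMap : Submodule K A) := ⟨ha, h2⟩
    rw [h1] at h3
    exact (Submodule.mem_bot K).1 h3
  | succ d ih =>
    intro B _ _ φ hB hd
    have hfd : FiniteDimensional K (S ⊓ LinearMap.ker φ.toLinearMap : Submodule K A) :=
      Submodule.finiteDimensional_inf_left _ _
    by_cases h1 : (S ⊓ LinearMap.ker φ.toLinearMap : Submodule K A) = ⊥
    · refine ⟨B, _, _, φ, hB, fun a ha h2 => ?_⟩
      have h3 : a ∈ (S ⊓ LinearMap.ker φ.toLinearMap : Submodule K A) := ⟨ha, h2⟩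
      rw [h1] at h3
      exact (Submodule.mem_bot K).1 h3
    · obtain ⟨a, ha, ha0⟩ := Submodule.exists_mem_ne_zero_of_ne_bot h1
      obtain ⟨B', _, _, ψ, hB', hψ⟩ := hres a ha0
      refine ih (B × B') (φ.prod ψ) inferInstance ?_
      have hlt : (S ⊓ LinearMap.ker (φ.prod ψ).toLinearMap : Submodule K A) <
          (S ⊓ LinearMap.ker φ.toLinearMap : Submodule K A) := by
        refine lt_of_le_of_ne ?_ ?_
        · rintro x ⟨hx, hx'⟩
          refine ⟨hx, ?_⟩
          have h4 : (φ x, ψ x) = 0 := hx'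
          exact congrArg Prod.fst h4
        · intro h4
          rw [← h4] at ha
          have h5 : (φ a, ψ a) = 0 := ha.2
          exact hψ (congrArg Prod.snd h5)
      have h2 := Submodule.finrank_lt_finrank_of_lt hlt
      omega

theorem exists_sep (S : Submodule K A) [FiniteDimensional K S]
    (hres : ∀ a : A, a ≠ 0 → ∃ (B : Type) (_ : Ring B) (_ : Algebra K B) (φ : A →ₐ[K] B),
      FiniteDimensional K B ∧ φ a ≠ 0) :
    ∃ (B : Type) (_ : Ring B) (_ : Algebra K B) (φ : A →ₐ[K] B),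
      FiniteDimensional K B ∧ ∀ a ∈ S, φ a = 0 → a = 0 :=
  exists_sep_aux S hres _ PUnit (zeroHom K A) inferInstance le_rfl

/-- the regular representation -/
theorem units_fd {C : ∀ (G : Type) [Group G], Prop} (hC : ClosedE C)
    (hK : ∀ m : ℕ, C (Matrix (Fin m) (Fin m) K)ˣ) (B : Type) [Ring B] [Algebra K B]
    (hB : FiniteDimensional K B) : C Bˣ := by
  let e : Module.End K B ≃ₐ[K] Matrix (Fin (Module.finrank K B)) (Fin (Module.finrank K B)) K :=
    algEquivMatrix (Module.finBasis K B)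
  let F : B →* Matrix (Fin (Module.finrank K B)) (Fin (Module.finrank K B)) K :=
    e.toRingEquiv.toRingHom.toMonoidHom.comp (Algebra.lmul K B).toRingHom.toMonoidHom
  refine hC.base.of_injective _ _ (Units.map F) ?_ (hK _)
  intro x y hxy
  apply Units.ext
  have h1 : e (Algebra.lmul K B x) = e (Algebra.lmul K B y) := Units.ext_iff.1 hxy
  have h2 := LinearMap.congr_fun (e.injective h1) 1
  simpa using h2

/-- **Unit groups of algebras of two by two matrices over a division ring with a discrete valuation,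
all balls of which are finite-dimensional** -/
theorem units_main {C : ∀ (G : Type) [Group G], Prop} (hC : ClosedE C)
    (hK : ∀ m : ℕ, C (Matrix (Fin m) (Fin m) K)ˣ)
    {D : Type} [DivisionRing D] (v : AddValuation D (WithTop ℤ))
    (j : A →+* Matrix (Fin 2) (Fin 2) D)
    (hfin : ∀ n : ℕ, FiniteDimensional K (Submodule.span K
      {a : A | ∀ i k, ((-(n : ℤ) : ℤ) : WithTop ℤ) ≤ v (j a i k)}))
    (hres : ∀ a : A, a ≠ 0 → ∃ (B : Type) (_ : Ring B) (_ : Algebra K B) (φ : A →ₐ[K] B),
      FiniteDimensional K B ∧ φ a ≠ 0) :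
    C Aˣ := by
  refine gl2_closed hC v (Units.map j.toMonoidHom) ?_
  intro n
  have := hfin n
  obtain ⟨B, _, _, φ, hB, hφ⟩ := exists_sep
    (Submodule.span K {a : A | ∀ i k, ((-(n : ℤ) : ℤ) : WithTop ℤ) ≤ v (j a i k)}) hres
  refine ⟨Bˣ, Units.instGroup, Units.map φ.toRingHom.toMonoidHom,
    units_fd hC hK B hB, fun g hg hb => ?_⟩
  apply Units.ext
  have h0 : φ g.1 = 1 := Units.ext_iff.1 hg
  have h3 : ∀ i k, ((-(n : ℤ) : ℤ) : WithTop ℤ) ≤ v (j g.1 i k) := hb
  have h4 : ∀ i k, ((-(n : ℤ) : ℤ) : WithTop ℤ) ≤ v (j 1 i k) := by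
    intro i k
    rw [map_one, Matrix.one_apply]
    split_ifs
    · rw [v.map_one]
      have h5 : (-(n : ℤ) : ℤ) ≤ 0 := by omega
      exact_mod_cast h5
    · rw [v.map_zero]
      exact le_top
  have h5 := hφ (g.1 - 1)
    (Submodule.sub_mem _ (Submodule.subset_span h3) (Submodule.subset_span h4))
    (by rw [map_sub, h0, map_one, sub_self])
  exact sub_eq_zero.1 h5

end algebra

end Pool.Agent.N24.TR
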