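import Pool.Agent.Y110.FJ.Stm
import Pool.Agent.Y430.SS.Lf
import Pool.Agent.Y961.FJ.Perm
import Pool.Agent.Y529.FJ.Ext

/-!
# Groups acting on trees

If a group `G` acts on a tree, and if for any finitely many vertices there is a homomorphism from `G`
to a group in the class `C` which is injective on the stabilizers of these vertices, then `G` is in `C`.
-/

set_option autoImplicit false

namespace Pool.Agent.N24.TR

open Pool.Agent.Y110.FJ SimpleGraph

section walks

variable {V M : Type} {T : SimpleGraph V} [Group M]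

/-- the product of the values of `e` along a walk -/
def wp (e : V → V → M) : ∀ {u v : V}, T.Walk u v → M
  | _, _, .nil => 1
  | u, _, .cons (v := v) _ p => e u v * wp e p

@[simp] theorem wp_nil (e : V → V → M) (u : V) : wp e (Walk.nil : T.Walk u u) = 1 := rfl

@[simp] theorem wp_cons (e : V → V → M) {u v w : V} (h : T.Adj u v) (p : T.Walk v w) :
    wp e (Walk.cons h p) = e u v * wp e p := rfl

theorem wp_append (e : V → V → M) {u v w : V} (p : T.Walk u v) (q : T.Walk v w) :
    wp e (p.append q) = wp e p * wp e q := by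
  induction p with
  | nil => simp
  | cons h p ih => simp [ih, mul_assoc]

theorem wp_bypass (hT : T.IsAcyclic) [DecidableEq V] (e : V → V → M)
    (he : ∀ u v, T.Adj u v → e u v * e v u = 1) {u v : V} (p : T.Walk u v) :
    wp e p = wp e p.bypass := by
  induction p with
  | nil => rfl
  | @cons u v w h p ih =>
    rw [wp_cons, ih]
    by_cases hs : u ∈ p.bypass.support
    · have h1 : (p.bypass).takeUntil u hs = Walk.cons h.symm Walk.nil := by
        have := (hT.subsingleton_path v u).elim ⟨_, p.bypass_isPath.takeUntil hs⟩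
          (Path.singleton h.symm)
        exact congrArg Subtype.val this
      have h2 : (p.bypass.takeUntil u hs).append (p.bypass.dropUntil u hs) = p.bypass :=
        Walk.take_spec _ _
      have h3 : (Walk.cons h p).bypass = p.bypass.dropUntil u hs := by simp [Walk.bypass, hs]
      rw [h3]
      have h4 : wp e p.bypass = e v u * wp e (p.bypass.dropUntil u hs) := by
        conv_lhs => rw [← h2]
        rw [wp_append, h1, wp_cons, wp_nil, mul_one]
      rw [h4, ← mul_assoc, he u v h, one_mul]
    · have h3 : (Walk.cons h p).bypass = Walk.cons h p.bypass := by simp [Walk.bypass, hs]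
      rw [h3, wp_cons]

theorem wp_eq (hT : T.IsAcyclic) (e : V → V → M)
    (he : ∀ u v, T.Adj u v → e u v * e v u = 1) {u v : V} (p q : T.Walk u v) :
    wp e p = wp e q := by
  classical
  rw [wp_bypass hT e he p, wp_bypass hT e he q]
  have h1 := (hT.subsingleton_path u v).elim ⟨_, p.bypass_isPath⟩ ⟨_, q.bypass_isPath⟩
  have h2 : p.bypass = q.bypass := congrArg Subtype.val h1
  rw [h2]

/-- the product along the walks between two vertices -/
noncomputable def gam (hT : T.IsTree) (e : V → V → M) (u v : V) : M :=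
  wp e (hT.connected.preconnected u v).some

theorem gam_eq (hT : T.IsTree) (e : V → V → M)
    (he : ∀ u v, T.Adj u v → e u v * e v u = 1) {u v : V} (p : T.Walk u v) :
    gam hT e u v = wp e p := wp_eq hT.isAcyclic e he _ _

theorem gam_mul (hT : T.IsTree) (e : V → V → M)
    (he : ∀ u v, T.Adj u v → e u v * e v u = 1) (u v w : V) :
    gam hT e u v * gam hT e v w = gam hT e u w := by
  rw [gam_eq hT e he ((hT.connected.preconnected u v).some.append
    (hT.connected.preconnected v w).some), wp_append]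
  rfl

theorem gam_self (hT : T.IsTree) (e : V → V → M)
    (he : ∀ u v, T.Adj u v → e u v * e v u = 1) (u : V) : gam hT e u u = 1 := by
  rw [gam_eq hT e he (Walk.nil : T.Walk u u), wp_nil]

theorem gam_adj (hT : T.IsTree) (e : V → V → M)
    (he : ∀ u v, T.Adj u v → e u v * e v u = 1) {u v : V} (h : T.Adj u v) :
    gam hT e u v = e u v := by
  rw [gam_eq hT e he (Walk.cons h Walk.nil), wp_cons, wp_nil, mul_one]

end walks

section action

variable {G V M : Type} {T : SimpleGraph V} [Group G] [MulAction G V] [Group M]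

/-- the action of `g` as an endomorphism of the graph -/
def shift (hact : ∀ (g : G) (u v : V), T.Adj u v → T.Adj (g • u) (g • v)) (g : G) : T →g T :=
  ⟨fun v => g • v, fun {u v} h => hact g u v h⟩

theorem wp_map (hact : ∀ (g : G) (u v : V), T.Adj u v → T.Adj (g • u) (g • v))
    (e : V → V → M) (g : G) (φ : M →* M) (hφ : ∀ u v, φ (e u v) = e (g • u) (g • v))
    {u v : V} (p : T.Walk u v) : wp e (p.map (shift hact g)) = φ (wp e p) := by
  induction p with
  | nil => exact (map_one φ).symm
  | cons h p ih =>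
    rw [Walk.map_cons, wp_cons, wp_cons, map_mul, ih, hφ]
    rfl

theorem gam_map (hT : T.IsTree)
    (hact : ∀ (g : G) (u v : V), T.Adj u v → T.Adj (g • u) (g • v))
    (e : V → V → M) (he : ∀ u v, T.Adj u v → e u v * e v u = 1)
    (g : G) (φ : M →* M) (hφ : ∀ u v, φ (e u v) = e (g • u) (g • v))
    (u v : V) : gam hT e (g • u) (g • v) = φ (gam hT e u v) := by
  obtain ⟨p⟩ := hT.connected.preconnected u v
  rw [gam_eq hT e he p, ← wp_map hact e g φ hφ]
  exact gam_eq hT e he (p.map (shift hact g))

theorem map_walk (hact : ∀ (g : G) (u v : V), T.Adj u v → T.Adj (g • u) (g • v)) (a : G) {u v : V}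
    (q : T.Walk u v) : ∃ q' : T.Walk (a • u) (a • v), ∀ x ∈ q'.support, ∃ y ∈ q.support,
      x = a • y := by
  refine ⟨q.map (shift hact a), fun x hx => ?_⟩
  have h1 : (q.map (shift hact a)).support = q.support.map (shift hact a) := Walk.support_map _ _
  have h2 : x ∈ (q.map (shift hact a)).support := hx
  rw [h1] at h2
  obtain ⟨y, hy, hyx⟩ := List.mem_map.1 h2
  exact ⟨y, hy, hyx.symm⟩

/-- the homomorphism given by the paths between the translates of a vertex -/
noncomputable def theta {Q : Type} [Group Q] (hT : T.IsTree)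
    (hact : ∀ (g : G) (u v : V), T.Adj u v → T.Adj (g • u) (g • v))
    (e : V → V → M) (he : ∀ u v, T.Adj u v → e u v * e v u = 1) (o : V)
    (π : G →* Q) (φ : Q →* MulAut M) (hφ : ∀ g u v, φ (π g) (e u v) = e (g • u) (g • v)) :
    G →* M ⋊[φ] Q where
  toFun g := ⟨gam hT e o (g • o), π g⟩
  map_one' := by
    apply SemidirectProduct.ext
    · show gam hT e o ((1 : G) • o) = 1
      rw [one_smul, gam_self hT e he]
    · exact map_one π
  map_mul' g h := by
    apply SemidirectProduct.ext
    · show gam hT e o ((g * h) • o) = gam hT e o (g • o) * φ (π g) (gam hT e o (h • o))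
      rw [mul_smul, ← gam_mul hT e he o (g • o) (g • h • o),
        gam_map hT hact e he g (φ (π g)).toMonoidHom (hφ g) o (h • o)]
      rfl
    · exact map_mul π g h

end action

section words

variable {V X : Type} {T : SimpleGraph V}

/-- the word of a walk -/
def wd (k : V → V → X) : ∀ {u v : V}, T.Walk u v → List (X × Bool)
  | _, _, .nil => []
  | u, _, .cons (v := v) _ p => (k u v, true) :: (k v u, false) :: wd k p

/-- the symbols -/
def sy (k : V → V → X) (u v : V) : FreeGroup X := FreeGroup.of (k u v) * (FreeGroup.of (k v u))⁻¹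

theorem sy_mul (k : V → V → X) (u v : V) : sy k u v * sy k v u = 1 := by
  unfold sy
  group

theorem wd_nil (k : V → V → X) {u v : V} (p : T.Walk u v) (h : wd k p = []) : u = v := by
  cases p with
  | nil => rfl
  | cons _ _ => exact absurd h (List.cons_ne_nil _ _)

theorem wp_wd (k : V → V → X) {u v : V} (p : T.Walk u v) :
    wp (sy k) p = FreeGroup.mk (wd k p) := by
  induction p with
  | nil => rfl
  | cons h p ih =>
    rw [wp_cons, ih]
    show FreeGroup.of _ * (FreeGroup.of _)⁻¹ * _ = _
    rw [FreeGroup.of, FreeGroup.of, FreeGroup.inv_mk, FreeGroup.mul_mk, FreeGroup.mul_mk]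
    rfl

theorem wd_reduced (k : V → V → X) (hinv : ∀ u v, T.Adj u v → k u v ≠ k v u)
    (good : V → Prop) (hgood : ∀ v u w, good v → T.Adj v u → T.Adj v w → k v u = k v w → u = w)
    {u v : V} (p : T.Walk u v) (hp : p.IsPath) (hs : ∀ x ∈ p.support, good x) :
    FreeGroup.IsReduced (wd k p) := by
  induction p with
  | nil => exact FreeGroup.IsReduced.nil
  | @cons u v w h p ih =>
    have hp' : p.IsPath := hp.of_cons
    have ih' := ih hp' (fun x hx => hs x (by simp [hx]))
    show FreeGroup.IsReduced ((k u v, true) :: (k v u, false) :: wd k p)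
    rw [FreeGroup.isReduced_cons_cons]
    refine ⟨fun h1 => absurd h1 (hinv u v h), ?_⟩
    cases p with
    | nil => exact FreeGroup.IsReduced.singleton
    | @cons _ z _ h' p' =>
      show FreeGroup.IsReduced ((k v u, false) :: (k v z, true) :: (k z v, false) :: wd k p')
      rw [FreeGroup.isReduced_cons_cons]
      refine ⟨fun h1 => ?_, ih'⟩
      exfalso
      have h2 : u = z := hgood v u z (hs v (by simp)) h.symm h' h1
      subst h2
      simp [Walk.cons_isPath_iff] at hp

end words

section quot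

variable {G V : Type} [Group G] [MulAction G V]

/-- pairs of vertices modulo `N` -/
def Rl (N : Subgroup G) (V : Type) [MulAction G V] : Setoid (V × V) where
  r x y := ∃ n ∈ N, n • x = y
  iseqv := by
    refine ⟨fun x => ⟨1, N.one_mem, one_smul _ _⟩, ?_, ?_⟩
    · rintro x y ⟨n, hn, rfl⟩
      exact ⟨n⁻¹, N.inv_mem hn, inv_smul_smul _ _⟩
    · rintro x y z ⟨n, hn, rfl⟩ ⟨m, hm, rfl⟩
      exact ⟨m * n, N.mul_mem hm hn, mul_smul _ _ _⟩

/-- the set of the orbits of `N` on the pairs of vertices -/
abbrev XX (N : Subgroup G) (V : Type) [MulAction G V] : Type := Quotient (Rl N V)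

instance gact (N : Subgroup G) [hN : N.Normal] : MulAction G (XX N V) where
  smul g := Quotient.map (fun x => g • x) (by
    rintro x y ⟨n, hn, rfl⟩
    refine ⟨g * n * g⁻¹, hN.conj_mem n hn g, ?_⟩
    rw [mul_smul, mul_smul, inv_smul_smul])
  one_smul := by
    rintro ⟨x⟩
    exact congrArg (Quotient.mk _) (one_smul G x)
  mul_smul g h := by
    rintro ⟨x⟩
    exact congrArg (Quotient.mk _) (mul_smul g h x)

theorem gact_mk (N : Subgroup G) [N.Normal] (g : G) (x : V × V) :
    g • (Quotient.mk (Rl N V) x : XX N V) = Quotient.mk (Rl N V) (g • x) := rfl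

/-- the action of the quotient group -/
def qhom (N : Subgroup G) [N.Normal] (V : Type) [MulAction G V] :
    G ⧸ N →* Equiv.Perm (XX N V) :=
  QuotientGroup.lift N (MulAction.toPermHom G (XX N V)) (by
    intro n hn
    apply Equiv.ext
    rintro ⟨x⟩
    exact Quotient.sound ⟨n⁻¹, N.inv_mem hn, inv_smul_smul _ _⟩)

instance qact (N : Subgroup G) [N.Normal] : MulAction (G ⧸ N) (XX N V) :=
  MulAction.compHom (XX N V) (qhom N V)

theorem qact_mk (N : Subgroup G) [N.Normal] (g : G) (x : V × V) :
    (QuotientGroup.mk' N g) • (Quotient.mk (Rl N V) x : XX N V) = Quotient.mk (Rl N V) (g • x) :=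
  rfl

/-- the class of a pair -/
def kk (N : Subgroup G) (u v : V) : XX N V := Quotient.mk (Rl N V) (u, v)

theorem kk_eq (N : Subgroup G) {u v u' v' : V} (h : kk N u v = kk N u' v') :
    ∃ n ∈ N, n • u = u' ∧ n • v = v' := by
  obtain ⟨n, hn, h⟩ := Quotient.exact h
  exact ⟨n, hn, congrArg Prod.fst h, congrArg Prod.snd h⟩

theorem permAut_sy (N : Subgroup G) [N.Normal] (g : G) (u v : V) :
    permAut (XX N V) (G ⧸ N) (QuotientGroup.mk' N g) (sy (kk N) u v) =
      sy (kk N) (g • u) (g • v) := by
  have h1 : ∀ x : XX N V, permAut (XX N V) (G ⧸ N) (QuotientGroup.mk' N g) (FreeGroup.of x) =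
      FreeGroup.of ((QuotientGroup.mk' N g) • x) := by
    intro x
    show FreeGroup.map _ (FreeGroup.of x) = _
    rw [FreeGroup.map.of]
    rfl
  unfold sy
  rw [map_mul, map_inv, h1, h1]
  rfl

end quot

section main

variable {C : ∀ (G : Type) [Group G], Prop} {G V : Type} [Group G] [MulAction G V]
  {T : SimpleGraph V}

theorem core (hC : ClosedE C) (hT : T.IsTree)
    (hact : ∀ (g : G) (u v : V), T.Adj u v → T.Adj (g • u) (g • v)) (o : V)
    {P : Type} [Group P] (f : G →* P) (hP : C P)
    (hgood : ∀ g : G, ∃ p : T.Walk o (g • o), ∀ x ∈ p.support, ∀ n : G, f n = 1 → n • x = x →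
      n = 1) : C G := by
  classical
  -- the parity
  have hpar : ∀ u v : V, T.Adj u v → (Multiplicative.ofAdd (1 : ZMod 2)) *
      (Multiplicative.ofAdd (1 : ZMod 2)) = 1 := by
    intro u v _
    decide
  obtain ⟨par, hpar'⟩ : ∃ par : V → V → Multiplicative (ZMod 2),
      par = fun _ _ => Multiplicative.ofAdd (1 : ZMod 2) := ⟨_, rfl⟩
  have hp : ∀ u v, T.Adj u v → par u v * par v u = 1 := by
    intro u v h
    rw [hpar']
    exact hpar u v h
  have hpm : ∀ (g : G) (u v : V), gam hT par (g • u) (g • v) = gam hT par u v := fun g u v =>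
    gam_map hT hact par hp g (MonoidHom.id _) (fun _ _ => by rw [hpar']; rfl) u v
  let τ : G →* Multiplicative (ZMod 2) := MonoidHom.mk' (fun g => gam hT par o (g • o)) (by
    intro g h
    rw [mul_smul, ← gam_mul hT par hp o (g • o) (g • h • o), hpm])
  have hτ : ∀ (n : G) (u : V), T.Adj u (n • u) → τ n ≠ 1 := by
    intro n u h
    show gam hT par o (n • o) ≠ 1
    rw [← gam_mul hT par hp o (n • u) (n • o), ← gam_mul hT par hp o u (n • u), hpm,
      gam_adj hT par hp h, mul_right_comm, gam_mul hT par hp, gam_self hT par hp, one_mul, hpar']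
    show Multiplicative.ofAdd (1 : ZMod 2) ≠ 1
    decide
  have hC2 : C (P × Multiplicative (ZMod 2)) :=
    hC.base.prod _ _ hP (Pool.Agent.Y430.SS.of_finite hC.base _ inferInstance)
  obtain ⟨N, hN⟩ : ∃ N : Subgroup G, N = (f.prod τ).ker := ⟨_, rfl⟩
  have hNn : N.Normal := hN ▸ inferInstance
  have hNf : ∀ n ∈ N, f n = 1 ∧ τ n = 1 := by
    intro n hn
    rw [hN, MonoidHom.mem_ker] at hn
    exact ⟨congrArg Prod.fst hn, congrArg Prod.snd hn⟩
  have hQ : C (G ⧸ N) := by
    subst hN
    exact hC.base.of_injective _ _ (QuotientGroup.kerLift (f.prod τ))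
      (QuotientGroup.kerLift_injective _) hC2
  have hperm := Pool.Agent.Y961.FJ.t_perm Pool.Agent.Y529.FJ.t_ext C hC (XX N V) (G ⧸ N) hQ
  obtain ⟨Θ, hΘ⟩ : ∃ Θ : G →* FreeGroup (XX N V) ⋊[permAut (XX N V) (G ⧸ N)] (G ⧸ N),
      Θ = theta hT hact (sy (kk N)) (fun u v _ => sy_mul _ u v) o (QuotientGroup.mk' N)
        (permAut (XX N V) (G ⧸ N)) (permAut_sy N) := ⟨_, rfl⟩
  refine hC.base.of_injective _ _ Θ ?_ hperm
  rw [injective_iff_map_eq_one]
  intro g hg
  have hgN : g ∈ N := by
    have h1 : (Θ g).right = 1 := by rw [hg]; rfl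
    rw [hΘ] at h1
    exact (QuotientGroup.eq_one_iff g).1 h1
  have hgl : gam hT (sy (kk N)) o (g • o) = 1 := by
    have h1 : (Θ g).left = 1 := by rw [hg]; rfl
    rw [hΘ] at h1
    exact h1
  obtain ⟨p, hpg⟩ := hgood g
  have h1 : FreeGroup.IsReduced (wd (kk N) p.bypass) := by
    refine wd_reduced (kk N) ?_ (fun x => ∀ n : G, f n = 1 → n • x = x → n = 1) ?_ p.bypass
      p.bypass_isPath (fun x hx => hpg x (p.support_bypass_subset_support hx))
    · intro u v h h2
      obtain ⟨n, hn, h3, -⟩ := kk_eq N h2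
      exact hτ n u (h3 ▸ h) (hNf n hn).2
    · intro v u w hv _ _ h2
      obtain ⟨n, hn, h3, h4⟩ := kk_eq N h2
      have h5 := hv n (hNf n hn).1 h3
      rw [h5, one_smul] at h4
      exact h4
  rw [gam_eq hT _ (fun u v _ => sy_mul _ u v) p.bypass, wp_wd] at hgl
  have h2 : wd (kk N) p.bypass = [] := by
    have h3 : (FreeGroup.mk (wd (kk N) p.bypass)).toWord = wd (kk N) p.bypass := by
      rw [FreeGroup.toWord_mk]
      exact h1.reduce_eq
    rw [← h3, hgl]
    rfl
  have h3 : g • o = o := (wd_nil (kk N) p.bypass h2).symm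
  exact hpg o (Walk.start_mem_support p) g (hNf g hgN).1 h3

/-- **Groups acting on trees.** -/
theorem tree_closed (hC : ClosedE C) (hT : T.IsTree)
    (hact : ∀ (g : G) (u v : V), T.Adj u v → T.Adj (g • u) (g • v))
    (h : ∀ Φ : Finset V, ∃ (P : Type) (_ : Group P) (f : G →* P), C P ∧
      ∀ v ∈ Φ, ∀ g : G, g • v = v → f g = 1 → g = 1) : C G := by
  classical
  obtain ⟨o⟩ := hT.connected.nonempty
  refine Pool.Agent.Y430.SS.of_directed hC.base G (Finset G) (fun i j => ?_)
    (fun s => Subgroup.closure (s : Set G))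
    (fun s t h => Subgroup.closure_mono (by exact_mod_cast h))
    (fun g => ⟨{g}, Subgroup.subset_closure (by simp)⟩) (fun S => ?_)
  · exact ⟨i ∪ j, Finset.subset_union_left, Finset.subset_union_right⟩
  obtain ⟨H, hH⟩ : ∃ H : Subgroup G, H = Subgroup.closure (S : Set G) := ⟨_, rfl⟩
  show C (Subgroup.closure (S : Set G))
  rw [← hH]
  let w : ∀ g : G, T.Walk o (g • o) := fun g => (hT.connected.preconnected o (g • o)).some
  obtain ⟨Φ, hΦ⟩ : ∃ Φ : Finset V, Φ = insert o (S.biUnion fun s => (w s).support.toFinset) :=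
    ⟨_, rfl⟩
  obtain ⟨P, _, f, hP, hf⟩ := h Φ
  have hgood : ∀ g ∈ H, ∃ p : T.Walk o (g • o), ∀ x ∈ p.support, ∃ k ∈ H, ∃ y ∈ Φ, x = k • y := by
    intro g hg
    rw [hH] at hg
    induction hg using Subgroup.closure_induction with
    | mem s hs =>
      refine ⟨w s, fun x hx => ⟨1, H.one_mem, x, ?_, (one_smul G x).symm⟩⟩
      rw [hΦ]
      exact Finset.mem_insert_of_mem (Finset.mem_biUnion.2 ⟨s, hs, List.mem_toFinset.2 hx⟩)
    | one =>
      refine ⟨Walk.nil.copy rfl (one_smul G o).symm, fun x hx => ?_⟩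
      rw [Walk.support_copy, Walk.support_nil, List.mem_singleton] at hx
      exact ⟨1, H.one_mem, o, by rw [hΦ]; exact Finset.mem_insert_self _ _, by rw [hx, one_smul]⟩
    | mul a b ha hb iha ihb =>
      obtain ⟨p, hp⟩ := iha
      obtain ⟨q, hq⟩ := ihb
      obtain ⟨q', hq'⟩ := map_walk hact a q
      refine ⟨(p.append q').copy rfl (mul_smul a b o).symm, fun x hx => ?_⟩
      rw [Walk.support_copy, Walk.mem_support_append_iff] at hx
      rcases hx with hx | hx
      · exact hp x hx
      · obtain ⟨y, hy, rfl⟩ := hq' x hx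
        obtain ⟨k, hk, z, hz, rfl⟩ := hq y hy
        exact ⟨a * k, H.mul_mem (hH ▸ ha) hk, z, hz, (mul_smul a k z).symm⟩
    | inv a ha iha =>
      obtain ⟨p, hp⟩ := iha
      obtain ⟨q', hq'⟩ := map_walk hact a⁻¹ p
      refine ⟨q'.reverse.copy (inv_smul_smul a o) rfl, fun x hx => ?_⟩
      rw [Walk.support_copy, Walk.support_reverse, List.mem_reverse] at hx
      obtain ⟨y, hy, rfl⟩ := hq' x hx
      obtain ⟨k, hk, z, hz, rfl⟩ := hp y hy
      exact ⟨a⁻¹ * k, H.mul_mem (H.inv_mem (hH ▸ ha)) hk, z, hz, (mul_smul a⁻¹ k z).symm⟩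
  refine core (G := H) hC hT (fun g u v h => hact g u v h) o (f.comp H.subtype) hP ?_
  intro g
  obtain ⟨p, hp⟩ := hgood g g.2
  refine ⟨p, fun x hx n hn hnx => ?_⟩
  obtain ⟨k, hk, y, hy, rfl⟩ := hp x hx
  have h1 : (k⁻¹ * (n : G) * k) • y = y := by
    rw [mul_smul, mul_smul]
    have h2 : (n : G) • (k • y) = k • y := hnx
    rw [h2, inv_smul_smul]
  have h2 : f (k⁻¹ * (n : G) * k) = 1 := by
    have h3 : f (n : G) = 1 := hn
    rw [map_mul, map_mul, h3, mul_one, ← map_mul, inv_mul_cancel, map_one]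
  have h3 := hf y hy _ h1 h2
  apply Subtype.ext
  show (n : G) = 1
  have h4 : (n : G) = k * (k⁻¹ * (n : G) * k) * k⁻¹ := by group
  rw [h4, h3]
  group

/-- **Groups acting on trees**, with one homomorphism for each vertex. -/
theorem tree_local (hC : ClosedE C) (hT : T.IsTree)
    (hact : ∀ (g : G) (u v : V), T.Adj u v → T.Adj (g • u) (g • v))
    (h : ∀ v : V, ∃ (P : Type) (_ : Group P) (f : G →* P), C P ∧
      ∀ g : G, g • v = v → f g = 1 → g = 1) : C G := by
  classical
  refine tree_closed hC hT hact fun Φ => ?_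
  induction Φ using Finset.induction_on with
  | empty =>
    exact ⟨Multiplicative ℤ, inferInstance, 1, hC.base.int, fun v hv => absurd hv (by simp)⟩
  | insert a Φ _ ih =>
    obtain ⟨P, _, f, hP, hf⟩ := ih
    obtain ⟨Q, _, f', hQ, hf'⟩ := h a
    refine ⟨P × Q, inferInstance, f.prod f', hC.base.prod _ _ hP hQ, fun v hv g hg h1 => ?_⟩
    have h2 : f g = 1 := congrArg Prod.fst h1
    have h3 : f' g = 1 := congrArg Prod.snd h1
    rcases Finset.mem_insert.1 hv with rfl | hv
    · exact hf' g hg h3
    · exact hf v hv g hg h2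

end main

end Pool.Agent.N24.TR
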